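import Mathlib

set_option autoImplicit false

/-!
# Free `ℚ`-groups

Existence of free `ℚ`-groups, and free `ℚ`-groups of rank at least two are not commutative.
-/

namespace Pool.Agent.W5h57.FreeQ

universe u v

/-- A `ℚ`-group: for every `g` and every `n ≥ 1` the equation `x ^ n = g` has exactly one
solution. -/
def IsQGroup (G : Type u) [Group G] : Prop :=
  ∀ (g : G) (n : ℕ), 1 ≤ n → ∃! x : G, x ^ n = g

/-- `G` with the map `ι : X → G` is the free `ℚ`-group on `X`: it is a `ℚ`-group and every map from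
`X` to a `ℚ`-group `H` extends uniquely to a homomorphism from `G` to `H`. -/
structure IsFreeQGroup {X G : Type u} [Group G] (ι : X → G) : Prop where
  qgroup : IsQGroup G
  univ : ∀ (H : Type u) [Group H], IsQGroup H → ∀ f : X → H, ∃! φ : G →* H, ∀ x, φ (ι x) = f x

/-! ### Existence -/

/-- Terms in the language of groups with roots; `root n` stands for the root of order `n + 1`. -/
inductive Term (X : Type u) : Type u
  | var : X → Term X
  | one : Term X
  | mul : Term X → Term X → Term X
  | inv : Term X → Term X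
  | root : ℕ → Term X → Term X

variable {X : Type u}

/-- powers of terms -/
def Term.npow (t : Term X) : ℕ → Term X
  | 0 => Term.one
  | n + 1 => Term.mul (Term.npow t n) t

/-- the congruence generated by the axioms of `ℚ`-groups -/
inductive Rel : Term X → Term X → Prop
  | refl (a) : Rel a a
  | symm {a b} : Rel a b → Rel b a
  | trans {a b c} : Rel a b → Rel b c → Rel a c
  | mul {a b a' b'} : Rel a a' → Rel b b' → Rel (Term.mul a b) (Term.mul a' b')
  | inv {a a'} : Rel a a' → Rel (Term.inv a) (Term.inv a')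
  | root (n : ℕ) {a a'} : Rel a a' → Rel (Term.root n a) (Term.root n a')
  | assoc (a b c) : Rel (Term.mul (Term.mul a b) c) (Term.mul a (Term.mul b c))
  | one_mul (a) : Rel (Term.mul Term.one a) a
  | mul_one (a) : Rel (Term.mul a Term.one) a
  | inv_mul (a) : Rel (Term.mul (Term.inv a) a) Term.one
  | root_pow (n : ℕ) (a) : Rel (Term.npow (Term.root n a) (n + 1)) a
  | pow_root (n : ℕ) (a) : Rel (Term.root n (Term.npow a (n + 1))) a

/-- the setoid of the congruence -/
def relSetoid (X : Type u) : Setoid (Term X) := ⟨Rel, Rel.refl, Rel.symm, Rel.trans⟩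

/-- the free `ℚ`-group on `X` -/
def FQ (X : Type u) : Type u := Quotient (relSetoid X)

/-- the class of a term -/
def cls (t : Term X) : FQ X := Quotient.mk (relSetoid X) t

theorem cls_eq {a b : Term X} : cls a = cls b ↔ Rel a b := Quotient.eq (r := relSetoid X)

theorem cls_surj (x : FQ X) : ∃ t, cls t = x := Quotient.exists_rep x

instance : Group (FQ X) where
  mul := Quotient.map₂ Term.mul fun _ _ h _ _ h' => Rel.mul h h'
  one := cls Term.one
  inv := Quotient.map Term.inv fun _ _ h => Rel.inv h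
  mul_assoc := by
    intro a b c
    obtain ⟨a, rfl⟩ := cls_surj a
    obtain ⟨b, rfl⟩ := cls_surj b
    obtain ⟨c, rfl⟩ := cls_surj c
    exact cls_eq.2 (Rel.assoc a b c)
  one_mul := by
    intro a
    obtain ⟨a, rfl⟩ := cls_surj a
    exact cls_eq.2 (Rel.one_mul a)
  mul_one := by
    intro a
    obtain ⟨a, rfl⟩ := cls_surj a
    exact cls_eq.2 (Rel.mul_one a)
  inv_mul_cancel := by
    intro a
    obtain ⟨a, rfl⟩ := cls_surj a
    exact cls_eq.2 (Rel.inv_mul a)

theorem cls_mul (a b : Term X) : cls (Term.mul a b) = cls a * cls b := rfl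

theorem cls_one : cls (Term.one : Term X) = 1 := rfl

theorem cls_inv (a : Term X) : cls (Term.inv a) = (cls a)⁻¹ := rfl

theorem cls_npow (a : Term X) (n : ℕ) : cls (Term.npow a n) = (cls a) ^ n := by
  induction n with
  | zero => rw [pow_zero]; rfl
  | succ n ih => rw [pow_succ, ← ih]; rfl

theorem isQGroup_FQ : IsQGroup (FQ X) := by
  intro g n hn
  obtain ⟨m, rfl⟩ : ∃ m, n = m + 1 := ⟨n - 1, by omega⟩
  obtain ⟨t, rfl⟩ := cls_surj g
  refine ⟨cls (Term.root m t), ?_, ?_⟩
  · change cls (Term.root m t) ^ (m + 1) = cls t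
    rw [← cls_npow]
    exact cls_eq.2 (Rel.root_pow m t)
  · intro y hy
    obtain ⟨s, rfl⟩ := cls_surj y
    change cls s ^ (m + 1) = cls t at hy
    rw [← cls_npow, cls_eq] at hy
    exact cls_eq.2 ((Rel.pow_root m s).symm.trans (Rel.root m hy))

section univ

variable {H : Type v} [Group H] (hH : IsQGroup H) (f : X → H)

/-- evaluation of a term in a `ℚ`-group -/
noncomputable def ev : Term X → H
  | Term.var x => f x
  | Term.one => 1
  | Term.mul a b => ev a * ev b
  | Term.inv a => (ev a)⁻¹
  | Term.root n a => (hH (ev a) (n + 1) (Nat.le_add_left 1 n)).choose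

theorem ev_root_pow (n : ℕ) (a : Term X) : ev hH f (Term.root n a) ^ (n + 1) = ev hH f a :=
  (hH (ev hH f a) (n + 1) (Nat.le_add_left 1 n)).choose_spec.1

theorem ev_npow (a : Term X) (n : ℕ) : ev hH f (Term.npow a n) = ev hH f a ^ n := by
  induction n with
  | zero => rw [pow_zero]; rfl
  | succ n ih => rw [pow_succ, ← ih]; rfl

theorem ev_rel {a b : Term X} (h : Rel a b) : ev hH f a = ev hH f b := by
  induction h with
  | refl a => rfl
  | symm _ ih => exact ih.symm
  | trans _ _ ih1 ih2 => exact ih1.trans ih2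
  | mul _ _ ih1 ih2 => simp only [ev, ih1, ih2]
  | inv _ ih => simp only [ev, ih]
  | root n _ ih => simp only [ev, ih]
  | assoc a b c => simp only [ev, mul_assoc]
  | one_mul a => simp only [ev, one_mul]
  | mul_one a => simp only [ev, mul_one]
  | inv_mul a => simp only [ev, inv_mul_cancel]
  | root_pow n a => rw [ev_npow, ev_root_pow]
  | pow_root n a =>
    have h1 := ev_root_pow hH f n (Term.npow a (n + 1))
    have h2 := ev_npow hH f a (n + 1)
    exact (hH (ev hH f (Term.npow a (n + 1))) (n + 1) (Nat.le_add_left 1 n)).unique h1 h2.symm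

/-- the homomorphism extending `f` -/
noncomputable def lift : FQ X →* H where
  toFun := Quotient.lift (ev hH f) fun _ _ h => ev_rel hH f h
  map_one' := rfl
  map_mul' := by
    intro a b
    obtain ⟨a, rfl⟩ := cls_surj a
    obtain ⟨b, rfl⟩ := cls_surj b
    rfl

include hH in
theorem hom_ext {φ ψ : FQ X →* H} (h : ∀ x, φ (cls (Term.var x)) = ψ (cls (Term.var x))) :
    φ = ψ := by
  ext g
  obtain ⟨t, rfl⟩ := cls_surj g
  induction t with
  | var x => exact h x
  | one => rw [cls_one, map_one, map_one]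
  | mul a b iha ihb => rw [cls_mul, map_mul, map_mul, iha, ihb]
  | inv a ih => rw [cls_inv, map_inv, map_inv, ih]
  | root n a ih =>
    have h1 : cls (Term.root n a) ^ (n + 1) = cls a := by
      rw [← cls_npow]
      exact cls_eq.2 (Rel.root_pow n a)
    apply (hH (φ (cls a)) (n + 1) (Nat.le_add_left 1 n)).unique
    · rw [← map_pow, h1]
    · rw [← map_pow, h1, ih]

end univ

/-- Free `ℚ`-groups exist. -/
theorem exists_free (X : Type u) : ∃ (G : Type u) (_ : Group G) (ι : X → G), IsFreeQGroup ι :=
  ⟨FQ X, inferInstance, fun x => cls (Term.var x), isQGroup_FQ, fun _ _ hH f =>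
    ⟨lift hH f, fun _ => rfl, fun _ hψ => hom_ext hH fun x => (hψ x).trans rfl⟩⟩

/-! ### The Heisenberg group over `ℚ` -/

/-- unitriangular `3 × 3` matrices over `ℚ` -/
@[ext] structure Heis : Type u where
  /-- entry -/
  a : ℚ
  /-- entry -/
  b : ℚ
  /-- entry -/
  c : ℚ

instance : Group Heis.{u} where
  mul x y := ⟨x.a + y.a, x.b + y.b, x.c + y.c + x.a * y.b⟩
  one := ⟨0, 0, 0⟩
  inv x := ⟨-x.a, -x.b, -x.c + x.a * x.b⟩
  mul_assoc x y z := by
    apply Heis.ext
    · change x.a + y.a + z.a = x.a + (y.a + z.a)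
      ring
    · change x.b + y.b + z.b = x.b + (y.b + z.b)
      ring
    · change (x.c + y.c + x.a * y.b) + z.c + (x.a + y.a) * z.b =
        x.c + (y.c + z.c + y.a * z.b) + x.a * (y.b + z.b)
      ring
  one_mul x := by
    apply Heis.ext
    · change 0 + x.a = x.a
      ring
    · change 0 + x.b = x.b
      ring
    · change 0 + x.c + 0 * x.b = x.c
      ring
  mul_one x := by
    apply Heis.ext
    · change x.a + 0 = x.a
      ring
    · change x.b + 0 = x.b
      ring
    · change x.c + 0 + x.a * 0 = x.c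
      ring
  inv_mul_cancel x := by
    apply Heis.ext
    · change -x.a + x.a = 0
      ring
    · change -x.b + x.b = 0
      ring
    · change -x.c + x.a * x.b + x.c + -x.a * x.b = 0
      ring

theorem Heis.mul_def (x y : Heis.{u}) :
    x * y = ⟨x.a + y.a, x.b + y.b, x.c + y.c + x.a * y.b⟩ := rfl

theorem Heis.one_def : (1 : Heis.{u}) = ⟨0, 0, 0⟩ := rfl

theorem Heis.pow_def (x : Heis.{u}) (n : ℕ) :
    x ^ n = ⟨n * x.a, n * x.b, n * x.c + n * (n - 1) / 2 * (x.a * x.b)⟩ := by
  induction n with
  | zero => rw [pow_zero, Heis.one_def]; apply Heis.ext <;> simp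
  | succ n ih =>
    rw [pow_succ, ih, Heis.mul_def]
    apply Heis.ext
    · push_cast; ring
    · push_cast; ring
    · push_cast; ring

theorem isQGroup_Heis : IsQGroup Heis.{u} := by
  intro g n hn
  have hn' : (n : ℚ) ≠ 0 := by
    have : n ≠ 0 := by omega
    exact_mod_cast this
  refine ⟨⟨g.a / n, g.b / n, (g.c - n * (n - 1) / 2 * (g.a / n * (g.b / n))) / n⟩, ?_, ?_⟩
  · change _ ^ n = g
    rw [Heis.pow_def]
    apply Heis.ext
    · change (n : ℚ) * (g.a / n) = g.a
      field_simp
    · change (n : ℚ) * (g.b / n) = g.b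
      field_simp
    · change (n : ℚ) * ((g.c - n * (n - 1) / 2 * (g.a / n * (g.b / n))) / n) +
        n * (n - 1) / 2 * (g.a / n * (g.b / n)) = g.c
      rw [mul_div_cancel₀ _ hn']
      ring
  · intro y hy
    change y ^ n = g at hy
    rw [Heis.pow_def] at hy
    have h1 : (n : ℚ) * y.a = g.a := congrArg Heis.a hy
    have h2 : (n : ℚ) * y.b = g.b := congrArg Heis.b hy
    have h3 : (n : ℚ) * y.c + n * (n - 1) / 2 * (y.a * y.b) = g.c := congrArg Heis.c hy
    have h4 : y.a = g.a / n := by rw [← h1]; field_simp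
    have h5 : y.b = g.b / n := by rw [← h2]; field_simp
    apply Heis.ext
    · exact h4
    · exact h5
    · change y.c = (g.c - n * (n - 1) / 2 * (g.a / n * (g.b / n))) / n
      rw [← h4, ← h5, ← h3, eq_div_iff hn']
      ring

/-- A free `ℚ`-group of rank at least two is not commutative. -/
theorem not_comm {X G : Type u} [Nontrivial X] [Group G] {ι : X → G} (h : IsFreeQGroup ι) :
    ∃ x y : G, x * y ≠ y * x := by
  classical
  obtain ⟨x, y, hxy⟩ := exists_pair_ne X
  obtain ⟨φ, hφ, -⟩ := h.univ Heis.{u} isQGroup_Heis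
    (fun z => if z = x then ⟨1, 0, 0⟩ else ⟨0, 1, 0⟩)
  refine ⟨ι x, ι y, fun hc => ?_⟩
  have h1 := congrArg φ hc
  simp only [map_mul, hφ, if_true, if_neg hxy.symm, Heis.mul_def] at h1
  have h2 := congrArg Heis.c h1
  norm_num at h2

end Pool.Agent.W5h57.FreeQ
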