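import Mathlib

set_option autoImplicit false
set_option linter.unusedSectionVars false

/-!
# Trees over ordered abelian groups

Basic facts on `Λ`-trees, and a theorem: a group in which every element is a cube and which acts
freely on a `Λ`-tree is abelian.
-/

namespace Pool.Agent.W5h57.LTree

universe u v w

/-- `d` is a metric on `T` with values in the ordered abelian group `Λ`. -/
structure IsLMetric {Λ : Type u} {T : Type v} [AddCommGroup Λ] [LinearOrder Λ]
    (d : T → T → Λ) : Prop where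
  self : ∀ x, d x x = 0
  eq_of : ∀ x y, d x y = 0 → x = y
  comm : ∀ x y, d x y = d y x
  tri : ∀ x y z, d x z ≤ d x y + d y z

/-- `s` is a segment with endpoints `x` and `y`: the image of a closed interval `[a, b]` of `Λ`
under an isometric embedding which maps `a` to `x` and `b` to `y`. -/
def IsSegment {Λ : Type u} {T : Type v} [AddCommGroup Λ] [LinearOrder Λ]
    (d : T → T → Λ) (s : Set T) (x y : T) : Prop :=
  ∃ a b : Λ, a ≤ b ∧ ∃ f : Λ → T,
    (∀ p ∈ Set.Icc a b, ∀ q ∈ Set.Icc a b, d (f p) (f q) = |p - q|) ∧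
    f '' Set.Icc a b = s ∧ f a = x ∧ f b = y

/-- The nonempty set `T` with the metric `d` is a `Λ`-tree: any two points are joined by a segment, the intersection
of two segments with a common endpoint is a segment, and if two segments meet only in a common
endpoint, then their union is a segment. -/
structure IsLTree {Λ : Type u} {T : Type v} [AddCommGroup Λ] [LinearOrder Λ]
    (d : T → T → Λ) : Prop extends IsLMetric d where
  ne : Nonempty T
  seg : ∀ x y, ∃ s, IsSegment d s x y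
  inter : ∀ s t x y z, IsSegment d s x y → IsSegment d t x z → ∃ p q, IsSegment d (s ∩ t) p q
  union : ∀ s t x y z, IsSegment d s x y → IsSegment d t x z → s ∩ t = {x} →
    ∃ p q, IsSegment d (s ∪ t) p q

variable {Λ : Type u} {T : Type v} [AddCommGroup Λ] [LinearOrder Λ] [IsOrderedAddMonoid Λ]
  {d : T → T → Λ}

theorem le_of_two {a b : Λ} (h : a + a ≤ b + b) : a ≤ b := by
  by_contra hc
  rw [not_le] at hc
  exact absurd (add_lt_add hc hc) (not_lt.2 h)

theorem eq_of_two {a b : Λ} (h : a + a = b + b) : a = b :=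
  le_antisymm (le_of_two h.le) (le_of_two h.ge)

theorem IsLMetric.nonneg (h : IsLMetric d) (x y : T) : 0 ≤ d x y := by
  apply le_of_two
  have h1 := h.tri x y x
  rw [h.self, h.comm y x] at h1
  simpa using h1

/-- betweenness -/
def Btw (d : T → T → Λ) (x z y : T) : Prop := d x y = d x z + d z y

theorem IsSegment.left {s : Set T} {x y : T} (h : IsSegment d s x y) : x ∈ s := by
  obtain ⟨a, b, hab, f, hf, rfl, rfl, rfl⟩ := h
  exact ⟨a, ⟨le_rfl, hab⟩, rfl⟩

theorem IsSegment.right {s : Set T} {x y : T} (h : IsSegment d s x y) : y ∈ s := by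
  obtain ⟨a, b, hab, f, hf, rfl, rfl, rfl⟩ := h
  exact ⟨b, ⟨hab, le_rfl⟩, rfl⟩

theorem IsSegment.symm {s : Set T} {x y : T} (h : IsSegment d s x y) : IsSegment d s y x := by
  obtain ⟨a, b, hab, f, hf, rfl, rfl, rfl⟩ := h
  refine ⟨-b, -a, neg_le_neg hab, fun t => f (-t), ?_, ?_, by simp, by simp⟩
  · intro p hp q hq
    rw [hf _ ⟨le_neg.1 hp.2, neg_le.1 hp.1⟩ _ ⟨le_neg.1 hq.2, neg_le.1 hq.1⟩, ← abs_neg]
    congr 1
    abel
  · ext t
    constructor
    · rintro ⟨p, hp, rfl⟩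
      exact ⟨-p, ⟨le_neg.1 hp.2, neg_le.1 hp.1⟩, rfl⟩
    · rintro ⟨p, hp, rfl⟩
      exact ⟨-p, ⟨neg_le_neg hp.2, neg_le_neg hp.1⟩, by simp⟩

/-- normalised parametrisation -/
theorem IsSegment.norm {s : Set T} {x y : T} (h : IsSegment d s x y) :
    ∃ c : Λ, 0 ≤ c ∧ d x y = c ∧ ∃ f : Λ → T,
      (∀ p ∈ Set.Icc 0 c, ∀ q ∈ Set.Icc 0 c, d (f p) (f q) = |p - q|) ∧
      f '' Set.Icc 0 c = s ∧ f 0 = x ∧ f c = y := by
  obtain ⟨a, b, hab, f, hf, rfl, rfl, rfl⟩ := h
  refine ⟨b - a, sub_nonneg.2 hab, ?_, fun t => f (t + a), ?_, ?_, by simp, by simp⟩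
  · rw [hf _ ⟨le_rfl, hab⟩ _ ⟨hab, le_rfl⟩, abs_sub_comm, abs_of_nonneg (sub_nonneg.2 hab)]
  · intro p hp q hq
    rw [hf _ ⟨by simpa using hp.1, by simpa [le_sub_iff_add_le] using hp.2⟩
      _ ⟨by simpa using hq.1, by simpa [le_sub_iff_add_le] using hq.2⟩]
    congr 1
    abel
  · ext t
    constructor
    · rintro ⟨p, hp, rfl⟩
      exact ⟨p + a, ⟨by simpa using hp.1, by simpa [le_sub_iff_add_le] using hp.2⟩, rfl⟩
    · rintro ⟨p, hp, rfl⟩
      exact ⟨p - a, ⟨sub_nonneg.2 hp.1, sub_le_sub_right hp.2 a⟩, by simp⟩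

/-- The points of a segment are ordered by the distance to an endpoint. -/
theorem IsSegment.dist {s : Set T} {x y : T} (h : IsSegment d s x y) {z w : T} (hz : z ∈ s)
    (hw : w ∈ s) : d z w = |d x z - d x w| := by
  obtain ⟨c, hc, hd, f, hf, rfl, rfl, rfl⟩ := h.norm
  obtain ⟨p, hp, rfl⟩ := hz
  obtain ⟨q, hq, rfl⟩ := hw
  rw [hf p hp q hq, hf 0 ⟨le_rfl, hc⟩ p hp, hf 0 ⟨le_rfl, hc⟩ q hq, zero_sub, zero_sub, abs_neg,
    abs_neg, abs_of_nonneg hp.1, abs_of_nonneg hq.1]

theorem IsSegment.btw {s : Set T} {x y : T} (h : IsSegment d s x y) {z : T} (hz : z ∈ s) :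
    Btw d x z y := by
  obtain ⟨c, hc, hd, f, hf, rfl, rfl, rfl⟩ := h.norm
  obtain ⟨p, hp, rfl⟩ := hz
  unfold Btw
  rw [hf p hp c ⟨hc, le_rfl⟩, hf 0 ⟨le_rfl, hc⟩ p hp, hf 0 ⟨le_rfl, hc⟩ c ⟨hc, le_rfl⟩, zero_sub,
    zero_sub, abs_neg, abs_neg, abs_of_nonneg hp.1, abs_of_nonneg hc, abs_sub_comm,
    abs_of_nonneg (sub_nonneg.2 hp.2)]
  abel

theorem IsSegment.sub {s : Set T} {x y : T} (h : IsSegment d s x y) {w : T} (hw : w ∈ s) :
    ∃ s' ⊆ s, IsSegment d s' w y ∧ ∀ v ∈ s', d x w ≤ d x v := by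
  obtain ⟨c, hc, hd, f, hf, rfl, rfl, rfl⟩ := h.norm
  obtain ⟨p, hp, rfl⟩ := hw
  have hsub : Set.Icc p c ⊆ Set.Icc 0 c := fun q hq => ⟨hp.1.trans hq.1, hq.2⟩
  refine ⟨f '' Set.Icc p c, Set.image_mono hsub, ?_, ?_⟩
  · exact ⟨p, c, hp.2, f, fun u hu v hv => hf u (hsub hu) v (hsub hv), rfl, rfl, rfl⟩
  · rintro _ ⟨q, hq, rfl⟩
    rw [hf 0 ⟨le_rfl, hc⟩ p hp, hf 0 ⟨le_rfl, hc⟩ q (hsub hq), zero_sub, zero_sub, abs_neg,
      abs_neg, abs_of_nonneg hp.1, abs_of_nonneg (hp.1.trans hq.1)]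
    exact hq.1

/-- If two segments from `x` meet only in `x` and their union is a segment, then `x` is between the
other endpoints. -/
theorem IsLTree.btw_of_inter (h : IsLTree d) {s t : Set T} {x y z : T} (hs : IsSegment d s x y)
    (ht : IsSegment d t x z) (hst : s ∩ t = {x}) : Btw d y x z := by
  obtain ⟨p, q, hpq⟩ := h.union s t x y z hs ht hst
  obtain ⟨a, b, hab, f, hf, hU, rfl, rfl⟩ := hpq
  have hx : x ∈ f '' Set.Icc a b := by rw [hU]; exact Or.inl hs.left
  have hy : y ∈ f '' Set.Icc a b := by rw [hU]; exact Or.inl hs.right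
  have hz : z ∈ f '' Set.Icc a b := by rw [hU]; exact Or.inr ht.right
  obtain ⟨X, hX, rfl⟩ := hx
  obtain ⟨Y, hY, rfl⟩ := hy
  obtain ⟨Z, hZ, rfl⟩ := hz
  -- a point of one segment between the common endpoint and the other one
  have key : ∀ (s t : Set T) (Y Z : Λ), Y ∈ Set.Icc a b → Z ∈ Set.Icc a b →
      IsSegment d s (f X) (f Y) → IsSegment d t (f X) (f Z) → s ∩ t = {f X} →
      s ∪ t = f '' Set.Icc a b → ((X ≤ Y ∧ Y ≤ Z) ∨ (Z ≤ Y ∧ Y ≤ X)) → Y = X := by
    intro s t Y Z hY hZ hs ht hst hU hor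
    obtain ⟨c, hc, hd, g, hg, hgt, hg0, hgc⟩ := ht.norm
    have hXY : |X - Y| ∈ Set.Icc 0 c := by
      refine ⟨abs_nonneg _, ?_⟩
      rw [← hd, hf X hX Z hZ]
      rcases hor with ⟨h1, h2⟩ | ⟨h1, h2⟩
      · rw [abs_sub_comm, abs_of_nonneg (sub_nonneg.2 h1), abs_sub_comm,
          abs_of_nonneg (sub_nonneg.2 (h1.trans h2))]
        exact sub_le_sub_right h2 X
      · rw [abs_of_nonneg (sub_nonneg.2 h2), abs_of_nonneg (sub_nonneg.2 (h1.trans h2))]
        exact sub_le_sub_left h1 X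
    have hV : g |X - Y| ∈ f '' Set.Icc a b := by
      rw [← hU, ← hgt]
      exact Or.inr ⟨_, hXY, rfl⟩
    obtain ⟨V, hV, hVe⟩ := hV
    have e1 : |X - V| = |X - Y| := by
      rw [← hf X hX V hV, hVe, ← hg0, hg 0 ⟨le_rfl, hc⟩ _ hXY, zero_sub, abs_neg,
        abs_of_nonneg hXY.1]
    have e2 : |V - Z| = |X - Z| - |X - Y| := by
      rw [← hf V hV Z hZ, hVe, ← hgc, hg _ hXY c ⟨hc, le_rfl⟩, abs_sub_comm,
        abs_of_nonneg (sub_nonneg.2 hXY.2), ← hf X hX Z hZ, hd]
    have hVY : V = Y := by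
      rcases hor with ⟨h1, h2⟩ | ⟨h1, h2⟩
      · rw [abs_sub_comm X Y, abs_of_nonneg (sub_nonneg.2 h1)] at e1 e2
        rw [abs_sub_comm X Z, abs_of_nonneg (sub_nonneg.2 (h1.trans h2))] at e2
        have h3 : Z - V ≤ Z - Y := by
          have := neg_le_abs (V - Z)
          rw [e2] at this
          have h4 : Z - X - (Y - X) = Z - Y := by abel
          rw [h4] at this
          simpa using this
        have h5 : V - X ≤ Y - X := by
          have := neg_le_abs (X - V)
          rw [e1] at this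
          simpa using this
        exact le_antisymm ((sub_le_sub_iff_right X).1 h5) ((sub_le_sub_iff_left Z).1 h3)
      · rw [abs_of_nonneg (sub_nonneg.2 h2)] at e1 e2
        rw [abs_of_nonneg (sub_nonneg.2 (h1.trans h2))] at e2
        have h3 : V - Z ≤ Y - Z := by
          have := le_abs_self (V - Z)
          rw [e2] at this
          have h4 : X - Z - (X - Y) = Y - Z := by abel
          rwa [h4] at this
        have h5 : X - V ≤ X - Y := by
          have := le_abs_self (X - V)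
          rwa [e1] at this
        exact le_antisymm ((sub_le_sub_iff_right Z).1 h3) ((sub_le_sub_iff_left X).1 h5)
    have hfY : f Y ∈ s ∩ t := by
      refine ⟨hs.right, ?_⟩
      rw [← hVY, hVe, ← hgt]
      exact ⟨_, hXY, rfl⟩
    rw [hst, Set.mem_singleton_iff] at hfY
    have := hf Y hY X hX
    rw [hfY, h.self] at this
    exact sub_eq_zero.1 (abs_eq_zero.1 this.symm)
  have hst' : t ∩ s = {f X} := by rw [Set.inter_comm]; exact hst
  have hU' : t ∪ s = f '' Set.Icc a b := by rw [Set.union_comm]; exact hU.symm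
  -- conclude
  have hmain : (Y ≤ X ∧ X ≤ Z) ∨ (Z ≤ X ∧ X ≤ Y) := by
    rcases le_total X Y with h1 | h1 <;> rcases le_total X Z with h2 | h2
    · rcases le_total Y Z with h3 | h3
      · have := key s t Y Z hY hZ hs ht hst hU.symm (Or.inl ⟨h1, h3⟩)
        exact Or.inl ⟨this.le, h2⟩
      · have := key t s Z Y hZ hY ht hs hst' hU' (Or.inl ⟨h2, h3⟩)
        exact Or.inr ⟨this.le, h1⟩
    · exact Or.inr ⟨h2, h1⟩
    · exact Or.inl ⟨h1, h2⟩
    · rcases le_total Y Z with h3 | h3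
      · have := key t s Z Y hZ hY ht hs hst' hU' (Or.inr ⟨h3, h2⟩)
        exact Or.inl ⟨h1, this.ge⟩
      · have := key s t Y Z hY hZ hs ht hst hU.symm (Or.inr ⟨h3, h1⟩)
        exact Or.inr ⟨h2, this.ge⟩
  unfold Btw
  rw [hf Y hY Z hZ, hf Y hY X hX, hf X hX Z hZ]
  rcases hmain with ⟨h1, h2⟩ | ⟨h1, h2⟩
  · rw [abs_sub_comm Y Z, abs_sub_comm Y X, abs_sub_comm X Z, abs_of_nonneg (sub_nonneg.2 h1),
      abs_of_nonneg (sub_nonneg.2 h2), abs_of_nonneg (sub_nonneg.2 (h1.trans h2))]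
    abel
  · rw [abs_of_nonneg (sub_nonneg.2 h1), abs_of_nonneg (sub_nonneg.2 h2),
      abs_of_nonneg (sub_nonneg.2 (h1.trans h2))]
    abel

/-- The intersection of two segments with common endpoint `x` is a segment with endpoint `x`. -/
theorem IsLTree.inter_left (h : IsLTree d) {s t : Set T} {x y z : T} (hs : IsSegment d s x y)
    (ht : IsSegment d t x z) : ∃ w, IsSegment d (s ∩ t) x w := by
  obtain ⟨p, q, hpq⟩ := h.inter s t x y z hs ht
  have key : ∀ p q, IsSegment d (s ∩ t) p q → d x p ≤ d x q → p = x := by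
    intro p q hpq hle
    have h1 := hpq.btw (⟨hs.left, ht.left⟩ : x ∈ s ∩ t)
    have h2 := hs.dist hpq.left.1 hpq.right.1
    rw [abs_sub_comm, abs_of_nonneg (sub_nonneg.2 hle)] at h2
    unfold Btw at h1
    rw [h2, h.comm p x] at h1
    have h3 : d x p + d x p = 0 := by
      have : d x p + d x p = (d x p + d x q) - (d x q - d x p) := by abel
      rw [this, ← h1]
      abel
    have h4 : d x p = 0 := eq_of_two (by simpa using h3)
    exact (h.eq_of _ _ h4).symm
  rcases le_total (d x p) (d x q) with hle | hle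
  · have := key p q hpq hle
    exact ⟨q, this ▸ hpq⟩
  · have := key q p hpq.symm hle
    exact ⟨p, this ▸ hpq.symm⟩

/-- Medians exist. -/
theorem IsLTree.median (h : IsLTree d) (x y z : T) :
    ∃ w, Btw d x w y ∧ Btw d x w z ∧ Btw d y w z := by
  obtain ⟨s, hs⟩ := h.seg x y
  obtain ⟨t, ht⟩ := h.seg x z
  obtain ⟨w, hw⟩ := h.inter_left hs ht
  refine ⟨w, hs.btw hw.right.1, ht.btw hw.right.2, ?_⟩
  obtain ⟨s', hs's, hs', hs'le⟩ := hs.sub hw.right.1
  obtain ⟨t', ht't, ht', ht'le⟩ := ht.sub hw.right.2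
  apply h.btw_of_inter hs' ht'
  apply Set.Subset.antisymm
  · rintro v ⟨hv1, hv2⟩
    have hv : v ∈ s ∩ t := ⟨hs's hv1, ht't hv2⟩
    have h1 := hw.btw hv
    have h2 := hs'le v hv1
    unfold Btw at h1
    have h3 : d v w ≤ 0 := by
      rw [h1] at h2
      simpa using h2
    have h4 : d v w = 0 := le_antisymm h3 (h.toIsLMetric.nonneg _ _)
    exact Set.mem_singleton_iff.2 (h.eq_of _ _ h4)
  · rintro v rfl
    exact ⟨hs'.left, ht'.left⟩

/-- A point between `x` and `y` lies on each segment from `x` to `y`. -/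
theorem IsLTree.mem_of_btw (h : IsLTree d) {s : Set T} {x y z : T} (hs : IsSegment d s x y)
    (hz : Btw d x z y) : z ∈ s := by
  obtain ⟨t, ht⟩ := h.seg x z
  obtain ⟨w, hw⟩ := h.inter_left hs ht
  obtain ⟨s', hs's, hs', hs'le⟩ := hs.sub hw.right.1
  obtain ⟨t', ht't, ht', ht'le⟩ := ht.sub hw.right.2
  have h0 : Btw d y w z := by
    apply h.btw_of_inter hs' ht'
    apply Set.Subset.antisymm
    · rintro v ⟨hv1, hv2⟩
      have hv : v ∈ s ∩ t := ⟨hs's hv1, ht't hv2⟩
      have h1 := hw.btw hv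
      have h2 := hs'le v hv1
      unfold Btw at h1
      have h3 : d v w ≤ 0 := by
        rw [h1] at h2
        simpa using h2
      have h4 : d v w = 0 := le_antisymm h3 (h.toIsLMetric.nonneg _ _)
      exact Set.mem_singleton_iff.2 (h.eq_of _ _ h4)
    · rintro v rfl
      exact ⟨hs'.left, ht'.left⟩
  have h1 := hs.btw hw.right.1
  have h2 := ht.btw hw.right.2
  unfold Btw at h0 h1 h2 hz
  rw [h.comm z y, h0, h2, h1, h.comm y w] at hz
  have h3 : d w z + d w z = 0 := by
    have : d w z + d w z = (d x w + d w z + (d w y + d w z)) - (d x w + d w y) := by abel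
    rw [this, ← hz]
    abel
  have h4 : d w z = 0 := eq_of_two (by simpa using h3)
  have h5 := h.eq_of _ _ h4
  rw [← h5]
  exact hw.right.1

/-- The distance of two points between `x` and `y`. -/
theorem IsLTree.dist_of_btw (h : IsLTree d) {x y z w : T} (hz : Btw d x z y) (hw : Btw d x w y) :
    d z w = |d x z - d x w| := by
  obtain ⟨s, hs⟩ := h.seg x y
  exact hs.dist (h.mem_of_btw hs hz) (h.mem_of_btw hs hw)

theorem IsLTree.eq_of_btw (h : IsLTree d) {x y z w : T} (hz : Btw d x z y) (hw : Btw d x w y)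
    (he : d x z = d x w) : z = w := by
  apply h.eq_of
  rw [h.dist_of_btw hz hw, he, sub_self, abs_zero]

/-- twice the Gromov product of `a` and `b` at `p` -/
def gp (d : T → T → Λ) (p a b : T) : Λ := d p a + d p b - d a b

theorem IsLTree.gp_comm (h : IsLTree d) (p a b : T) : gp d p a b = gp d p b a := by
  unfold gp
  rw [h.comm a b]
  abel

theorem gp_of_median (h : IsLTree d) {p a b m : T} (h1 : Btw d p m a) (h2 : Btw d p m b)
    (h3 : Btw d a m b) : gp d p a b = d p m + d p m := by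
  unfold Btw at h1 h2 h3
  unfold gp
  rw [h1, h2, h3, h.comm a m]
  abel

/-- The four point condition. -/
theorem IsLTree.hyp (h : IsLTree d) (p a b c : T) : min (gp d p a b) (gp d p b c) ≤ gp d p a c := by
  obtain ⟨m, hm1, hm2, hm3⟩ := h.median p a b
  obtain ⟨n, hn1, hn2, hn3⟩ := h.median p b c
  have key : ∀ (a c m n : T), Btw d p m a → Btw d p m b → Btw d p n b → Btw d p n c →
      d p m ≤ d p n → d p m + d p m ≤ gp d p a c := by
    intro a c m n h1 h2 h3 h4 hle
    have h5 := h.dist_of_btw h2 h3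
    rw [abs_sub_comm, abs_of_nonneg (sub_nonneg.2 hle)] at h5
    unfold Btw at h1 h4
    have h6 : d a c ≤ d m a + (d m n + d n c) := by
      calc d a c ≤ d a m + d m c := h.tri _ _ _
        _ ≤ d a m + (d m n + d n c) := by gcongr; exact h.tri _ _ _
        _ = d m a + (d m n + d n c) := by rw [h.comm a m]
    rw [h5] at h6
    unfold gp
    rw [h1, h4, le_sub_iff_add_le]
    calc d p m + d p m + d a c ≤ d p m + d p m + (d m a + (d p n - d p m + d n c)) := by gcongr
      _ = _ := by abel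
  rw [gp_of_median h hm1 hm2 hm3, gp_of_median h hn1 hn2 hn3]
  rcases le_total (d p m) (d p n) with hle | hle
  · exact (min_le_left _ _).trans (key a c m n hm1 hm2 hn1 hn2 hle)
  · refine (min_le_right _ _).trans ?_
    rw [h.gp_comm p a c]
    exact key c a n m hn2 hn1 hm2 hm1 hle

end Pool.Agent.W5h57.LTree
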