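import Pool.Agent.W5h57.LTree

set_option autoImplicit false
set_option linter.unusedSectionVars false

/-!
# A group in which every element is a cube and which acts freely on a `Λ`-tree is abelian
-/

namespace Pool.Agent.W5h57.LTree

universe u v w

/-- The group `G` acts freely on the `Λ`-tree `T`: it acts by isometries, no nontrivial element
fixes a point, and no nontrivial element inverts a segment, that is, maps a segment with endpoints
`x` and `y` onto itself with `x` going to `y` and `y` going to `x`. -/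
structure ActsFreely {Λ : Type u} {T : Type v} [AddCommGroup Λ] [LinearOrder Λ]
    (d : T → T → Λ) (G : Type w) [Group G] [MulAction G T] : Prop where
  isom : ∀ (g : G) (x y : T), d (g • x) (g • y) = d x y
  nofix : ∀ g : G, g ≠ 1 → ∀ x : T, g • x ≠ x
  noinv : ∀ g : G, g ≠ 1 → ∀ (s : Set T) (x y : T), IsSegment d s x y →
    ¬ ((fun p => g • p) '' s = s ∧ g • x = y ∧ g • y = x)

variable {Λ : Type u} {T : Type v} [AddCommGroup Λ] [LinearOrder Λ] [IsOrderedAddMonoid Λ]
  {d : T → T → Λ} {G : Type w} [Group G] [MulAction G T]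

theorem seg_unique (h : IsLTree d) {s t : Set T} {x y : T} (hs : IsSegment d s x y)
    (ht : IsSegment d t x y) : s = t :=
  Set.Subset.antisymm (fun _ hz => h.mem_of_btw ht (hs.btw hz))
    (fun _ hz => h.mem_of_btw hs (ht.btw hz))

theorem IsSegment.image {s : Set T} {x y : T} (h : IsSegment d s x y) (g : G)
    (hg : ∀ x y : T, d (g • x) (g • y) = d x y) :
    IsSegment d ((fun p => g • p) '' s) (g • x) (g • y) := by
  obtain ⟨a, b, hab, f, hf, rfl, rfl, rfl⟩ := h
  refine ⟨a, b, hab, fun t => g • f t, ?_, ?_, rfl, rfl⟩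
  · intro p hp q hq
    rw [hg, hf p hp q hq]
  · rw [Set.image_image]

/-- no elements of order two -/
theorem ActsFreely.two (h : IsLTree d) (hG : ActsFreely d G) {g : G} (hg : g * g = 1) : g = 1 := by
  by_contra hne
  obtain ⟨q⟩ := h.ne
  obtain ⟨s, hs⟩ := h.seg q (g • q)
  have h2 : g • g • q = q := by rw [smul_smul, hg, one_smul]
  refine hG.noinv g hne s q (g • q) hs ⟨?_, rfl, h2⟩
  have h3 := hs.image g (hG.isom g)
  rw [h2] at h3
  exact seg_unique h h3.symm hs

/-- the displacement of `p` under `g` -/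
def L (d : T → T → Λ) (p : T) (g : G) : Λ := d p (g • p)

theorem Btw.smul (hG : ActsFreely d G) {x y z : T} (h : Btw d x y z) (g : G) :
    Btw d (g • x) (g • y) (g • z) := by
  unfold Btw at *
  rw [hG.isom, hG.isom, hG.isom, h]

theorem Btw.symm (hd : IsLMetric d) {x y z : T} (h : Btw d x y z) : Btw d z y x := by
  unfold Btw at *
  rw [hd.comm z x, h, hd.comm z y, hd.comm y x, add_comm]

/-- if `b` is between `a` and `c`, and `c` is between `a` and `e`, then `b` is between `a` and
`e` -/
theorem Btw.trans (hd : IsLMetric d) {a b c e : T} (h1 : Btw d a b c) (h2 : Btw d a c e) :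
    Btw d a b e := by
  unfold Btw at *
  apply le_antisymm (hd.tri _ _ _)
  have := hd.tri b c e
  linear_combination (norm := (refine le_of_eq ?_; abel)) this - h1 - h2

theorem L_inv (hd : IsLMetric d) (hG : ActsFreely d G) (p : T) (g : G) : d p (g⁻¹ • p) = L d p g := by
  unfold L
  rw [← hG.isom g p (g⁻¹ • p), smul_inv_smul, hd.comm]

theorem L_pos (hd : IsLMetric d) (hG : ActsFreely d G) (p : T) {g : G} (hg : g ≠ 1) : 0 < L d p g := by
  refine lt_of_le_of_ne (hd.nonneg _ _) fun h => hG.nofix g hg p ?_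
  exact (hd.eq_of _ _ h.symm).symm

theorem gp_smul (hG : ActsFreely d G) (g : G) (p a b : T) :
    gp d (g • p) (g • a) (g • b) = gp d p a b := by
  unfold gp
  rw [hG.isom, hG.isom, hG.isom]

theorem gp_nonneg (hd : IsLMetric d) (p a b : T) : 0 ≤ gp d p a b := by
  unfold gp
  have := hd.tri a p b
  rw [hd.comm a p] at this
  exact sub_nonneg.2 this

theorem btw_iff_gp (hd : IsLMetric d) {p a b : T} : Btw d a p b ↔ gp d p a b = 0 := by
  unfold Btw gp
  rw [hd.comm a p, sub_eq_zero]
  exact eq_comm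

/-- A nontrivial element moves `q` less than its square. -/
theorem sq_lt (h : IsLTree d) (hG : ActsFreely d G) (q : T) {g : G} (hg : g ≠ 1) :
    d q (g • q) < d q (g • g • q) := by
  have hd := h.toIsLMetric
  by_contra hc
  rw [not_lt] at hc
  obtain ⟨c, h1, h2, h3⟩ := h.median q (g⁻¹ • q) (g • q)
  have e1 : gp d q (g⁻¹ • q) (g • q) = d q c + d q c := gp_of_median h h1 h2 h3
  have e2 : d (g⁻¹ • q) (g • q) = d q (g • g • q) := by
    rw [← hG.isom g (g⁻¹ • q) (g • q), smul_inv_smul]
  have e3 : d q (g⁻¹ • q) = d q (g • q) := L_inv hd hG q g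
  unfold gp at e1
  rw [e2, e3] at e1
  -- `g c` is between `q` and `g q`
  have h4 : Btw d (g • q) (g • c) q := by
    have := h1.smul hG g
    rwa [smul_inv_smul] at this
  have h5 := h4.symm hd
  have h6 : d (g • q) (g • c) = d q c := hG.isom _ _ _
  have h7 : d q (g • c) = d q (g • q) - d q c := by
    have h5' := h5
    unfold Btw at h5'
    rw [h5', hd.comm (g • c) (g • q), h6]
    abel
  have h8 : d q (g • c) ≤ d q c := by
    rw [h7]
    linear_combination (norm := (refine le_of_eq ?_; abel)) hc + e1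
  have h9 := h.dist_of_btw h5 h2
  rw [abs_sub_comm, abs_of_nonneg (sub_nonneg.2 h8)] at h9
  have h10 : Btw d q (g • c) c := by
    unfold Btw
    rw [h9]
    abel
  have h11 : Btw d q (g • c) (g⁻¹ • q) := h10.trans hd h1
  have h12 : Btw d (g • q) (g • g • c) q := by
    have := h11.smul hG g
    rwa [smul_inv_smul] at this
  have h13 : d q (g • g • c) = d q c := by
    have h14 := h12.symm hd
    unfold Btw at h14
    have h15 : d (g • g • c) (g • q) = d q (g • c) := by
      rw [hd.comm, hG.isom]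
    rw [h15, h7] at h14
    linear_combination (norm := abel) -h14
  have h16 : g • g • c = c := h.eq_of_btw (h12.symm hd) h2 h13
  have h17 : g * g = 1 := by
    by_contra h18
    exact hG.nofix _ h18 c (by rw [mul_smul]; exact h16)
  exact hg (hG.two h h17)

/-- `p` is on the axis of `g` -/
def OnAxis (d : T → T → Λ) (g : G) (p : T) : Prop := gp d p (g⁻¹ • p) (g • p) = 0

theorem onAxis_iff (hd : IsLMetric d) (hG : ActsFreely d G) {g : G} {p : T} :
    OnAxis d g p ↔ d p (g • g • p) = d p (g • p) + d p (g • p) := by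
  unfold OnAxis gp
  have e2 : d (g⁻¹ • p) (g • p) = d p (g • g • p) := by
    rw [← hG.isom g (g⁻¹ • p) (g • p), smul_inv_smul]
  have e3 : d p (g⁻¹ • p) = d p (g • p) := L_inv hd hG p g
  rw [e2, e3, sub_eq_zero]
  exact eq_comm

theorem OnAxis.inv (h : IsLTree d) {g : G} {p : T} (hp : OnAxis d g p) : OnAxis d g⁻¹ p := by
  unfold OnAxis at *
  rw [inv_inv, h.gp_comm]
  exact hp

/-- The projection of `q` to the axis of `g`. -/
theorem exists_proj (h : IsLTree d) (hG : ActsFreely d G) (q : T) {g : G} (hg : g ≠ 1) :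
    ∃ p, OnAxis d g p ∧ gp d p q (g • p) = 0 ∧ gp d p q (g⁻¹ • p) = 0 := by
  have hd := h.toIsLMetric
  have hlt := sq_lt h hG q hg
  obtain ⟨c, h1, h2, h3⟩ := h.median q (g⁻¹ • q) (g • q)
  have e1 : gp d q (g⁻¹ • q) (g • q) = d q c + d q c := gp_of_median h h1 h2 h3
  have e2 : d (g⁻¹ • q) (g • q) = d q (g • g • q) := by
    rw [← hG.isom g (g⁻¹ • q) (g • q), smul_inv_smul]
  have e3 : d q (g⁻¹ • q) = d q (g • q) := L_inv hd hG q g
  unfold gp at e1
  rw [e2, e3] at e1
  have h4 : Btw d (g • q) (g • c) q := by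
    have := h1.smul hG g
    rwa [smul_inv_smul] at this
  have h5 := h4.symm hd
  have h6 : d (g • q) (g • c) = d q c := hG.isom _ _ _
  have h7 : d q (g • c) = d q (g • q) - d q c := by
    have h5' := h5
    unfold Btw at h5'
    rw [h5', hd.comm (g • c) (g • q), h6]
    abel
  have h8 : d q c ≤ d q (g • c) := by
    rw [h7]
    linear_combination (norm := (refine le_of_eq ?_; abel)) hlt.le - e1
  have h9 := h.dist_of_btw h2 h5
  rw [abs_sub_comm, abs_of_nonneg (sub_nonneg.2 h8)] at h9
  have h10 : Btw d q c (g • c) := by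
    unfold Btw
    rw [h9]
    abel
  -- `c` is between `q` and `g⁻¹ c`
  have h11 : Btw d q c (g⁻¹ • c) := by
    have k1 : d q (g⁻¹ • c) = d q (g • c) := by
      have k2 : Btw d q (g⁻¹ • c) (g⁻¹ • q) := by
        have := (h2.symm hd).smul hG g⁻¹
        rwa [inv_smul_smul] at this
      unfold Btw at k2
      have k3 : d (g⁻¹ • c) (g⁻¹ • q) = d q c := by rw [hG.isom, hd.comm]
      rw [k3, e3] at k2
      rw [h7]
      linear_combination (norm := abel) -k2
    have k2 : Btw d q (g⁻¹ • c) (g⁻¹ • q) := by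
      have := (h2.symm hd).smul hG g⁻¹
      rwa [inv_smul_smul] at this
    have k3 := h.dist_of_btw h1 k2
    rw [k1, abs_sub_comm, abs_of_nonneg (sub_nonneg.2 h8)] at k3
    unfold Btw
    rw [k3, k1]
    abel
  have p1 : gp d c q (g • c) = 0 := (btw_iff_gp hd).1 h10
  have p2 : gp d c q (g⁻¹ • c) = 0 := (btw_iff_gp hd).1 h11
  refine ⟨c, ?_, p1, p2⟩
  -- the directions
  rw [onAxis_iff hd hG]
  have h12 : Btw d (g⁻¹ • q) c (g • q) := h3
  -- `g c` is between `c` and `g q`, `g⁻¹ c` is between `c` and `g⁻¹ q`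
  have h13 : Btw d c (g • c) (g • q) := by
    unfold Btw at *
    rw [h7] at h9
    have h2' := h2
    rw [hd.comm (g • c) (g • q), h6, h9]
    linear_combination (norm := abel) -h2'
  have h14 : Btw d (g⁻¹ • q) (g⁻¹ • c) c := by
    have := ((h13.symm hd).symm hd).smul hG g⁻¹
    rw [inv_smul_smul, inv_smul_smul] at this
    have k4 : Btw d q c (g⁻¹ • c) := h11
    -- distances
    unfold Btw at *
    have k5 : d (g⁻¹ • q) (g⁻¹ • c) = d q c := hG.isom _ _ _
    have k6 : d (g⁻¹ • q) c = d q (g • c) := by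
      rw [← hG.isom g (g⁻¹ • q) c, smul_inv_smul]
    have k7 : d (g⁻¹ • c) c = d c (g • c) := by
      rw [← hG.isom g (g⁻¹ • c) c, smul_inv_smul]
    rw [k5, k6, k7]
    exact h10
  have h15 : d (g⁻¹ • c) (g • c) = d (g⁻¹ • c) c + d c (g • c) := by
    apply le_antisymm (hd.tri _ _ _)
    have t1 := hd.tri (g⁻¹ • q) (g⁻¹ • c) (g • q)
    have t2 := hd.tri (g⁻¹ • c) (g • c) (g • q)
    unfold Btw at h12 h13 h14
    linear_combination (norm := (refine le_of_eq ?_; abel)) t1 + t2 - h12 - h13 - h14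
  have k8 : d (g⁻¹ • c) (g • c) = d c (g • g • c) := by
    rw [← hG.isom g (g⁻¹ • c) (g • c), smul_inv_smul]
  have k7 : d (g⁻¹ • c) c = d c (g • c) := by
    rw [← hG.isom g (g⁻¹ • c) c, smul_inv_smul]
  rw [← k8, h15, k7]

/-- A consequence of the four point condition: if `(a|c)_p = 0` and `(b|c)_p > 0`, then
`(a|b)_p = 0`. -/
theorem gp_zero_of_pos (h : IsLTree d) {p a b c : T} (h1 : gp d p a c = 0) (h2 : 0 < gp d p b c) :
    gp d p a b = 0 := by
  have h3 := h.hyp p a b c
  rw [h1] at h3
  refine le_antisymm ?_ (gp_nonneg h.toIsLMetric _ _ _)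
  rcases min_le_iff.1 h3 with h4 | h4
  · exact h4
  · exact absurd h4 (not_le.2 h2)

/-- A broken path without backtracking is geodesic. -/
theorem path_zero (h : IsLTree d) {a b c e : T} (h1 : gp d b a c = 0) (h2 : gp d c b e = 0)
    (hbc : 0 < d b c) : gp d b a e = 0 := by
  apply gp_zero_of_pos h h1
  unfold gp at *
  have h3 : d b e = d b c + d c e := by
    rw [h.comm c b] at h2
    exact (sub_eq_zero.1 h2).symm
  rw [h3, h.comm e c]
  have : d b c + d c e + d b c - d c e = d b c + d b c := by abel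
  rw [this]
  exact add_pos hbc hbc

/-- the condition that the axes of `x` and `y` leave `p` in compatible directions -/
def Compat (d : T → T → Λ) (x y : G) (p : T) : Prop :=
  gp d p (y⁻¹ • p) (x • p) = 0 ∧ gp d p (x⁻¹ • p) (y • p) = 0

theorem Compat.mul (h : IsLTree d) (hG : ActsFreely d G) {x y : G} {p : T} (hc : Compat d x y p)
    (hx : x ≠ 1) (hy : y ≠ 1) :
    L d p (x * y) = L d p x + L d p y ∧ OnAxis d (x * y) p := by
  have hd := h.toIsLMetric
  obtain ⟨h1, h2⟩ := hc
  have e1 : gp d (x • p) p ((x * y) • p) = 0 := by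
    rw [← h2, ← gp_smul hG x p, smul_inv_smul, mul_smul]
  have e2 : gp d (y⁻¹ • p) ((x * y)⁻¹ • p) p = 0 := by
    rw [← gp_smul hG y, smul_inv_smul, ← mul_smul, mul_inv_rev, mul_inv_cancel_left]
    exact h2
  have hL : L d p (x * y) = L d p x + L d p y := by
    have e3 := (btw_iff_gp hd).2 e1
    unfold Btw at e3
    unfold L
    rw [e3, mul_smul, hG.isom]
  refine ⟨hL, ?_⟩
  -- the path from `(xy)⁻¹ p` to `xp`
  have hyp : 0 < d (y⁻¹ • p) p := by
    rw [hd.comm, L_inv hd hG]
    exact L_pos hd hG p hy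
  have hxp : 0 < d p (x • p) := L_pos hd hG p hx
  have e4 : gp d (y⁻¹ • p) ((x * y)⁻¹ • p) (x • p) = 0 := path_zero h e2 h1 hyp
  have e5 : gp d p ((x * y)⁻¹ • p) (x • p) = 0 := by
    have k1 := (btw_iff_gp hd).2 e4
    have k2 := (btw_iff_gp hd).2 e2
    have k3 := (btw_iff_gp hd).2 h1
    rw [← btw_iff_gp hd]
    unfold Btw at *
    linear_combination (norm := abel) k1 - k2 + k3
  unfold OnAxis
  apply gp_zero_of_pos h e5
  have e6 := (btw_iff_gp hd).2 e1
  unfold Btw at e6
  unfold gp
  rw [e6, hd.comm ((x * y) • p) (x • p)]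
  have : d p (x • p) + d (x • p) ((x * y) • p) + d p (x • p) - d (x • p) ((x * y) • p) =
    d p (x • p) + d p (x • p) := by abel
  rw [this]
  exact add_pos hxp hxp

/-- If `p` is on both axes, then `x` and `y` or `x` and `y⁻¹` are compatible at `p`. -/
theorem compat_or (h : IsLTree d) {x y : G} {p : T} (hx : OnAxis d x p) (hy : OnAxis d y p) :
    Compat d x y p ∨ Compat d x y⁻¹ p := by
  have hd := h.toIsLMetric
  unfold OnAxis at hx hy
  unfold Compat
  rw [inv_inv]
  by_cases h1 : gp d p (y⁻¹ • p) (x • p) = 0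
  · by_cases h2 : gp d p (x⁻¹ • p) (y • p) = 0
    · exact Or.inl ⟨h1, h2⟩
    · right
      have h2' : 0 < gp d p (x⁻¹ • p) (y • p) := lt_of_le_of_ne (gp_nonneg hd _ _ _) (Ne.symm h2)
      constructor
      · -- (yp | xp) = 0
        rw [h.gp_comm]
        apply gp_zero_of_pos h (c := x⁻¹ • p) (by rw [h.gp_comm]; exact hx)
        rw [h.gp_comm]
        exact h2'
      · rw [h.gp_comm]
        exact gp_zero_of_pos h hy h2'
  · right
    have h1' : 0 < gp d p (y⁻¹ • p) (x • p) := lt_of_le_of_ne (gp_nonneg hd _ _ _) (Ne.symm h1)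
    constructor
    · -- (yp | xp) = 0
      apply gp_zero_of_pos h (c := y⁻¹ • p) (by rw [h.gp_comm]; exact hy)
      rw [h.gp_comm]
      exact h1'
    · exact gp_zero_of_pos h hx h1'

theorem dir_pos (h : IsLTree d) (hG : ActsFreely d G) {g : G} {p q : T} (hg : g ≠ 1)
    (hq : OnAxis d g q) (hp : ¬ OnAxis d g p) : 0 < gp d p q (g • p) := by
  have hd := h.toIsLMetric
  by_contra hc
  have h0 : gp d p q (g • p) = 0 := le_antisymm (not_lt.1 hc) (gp_nonneg hd _ _ _)
  have hpos : 0 < gp d p (g⁻¹ • p) (g • p) :=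
    lt_of_le_of_ne (gp_nonneg hd _ _ _) (Ne.symm hp)
  have h1 : gp d p q (g⁻¹ • p) = 0 := gp_zero_of_pos h h0 hpos
  have hpq : 0 < d q p := by
    refine lt_of_le_of_ne (hd.nonneg _ _) fun he => hp ?_
    rw [← hd.eq_of _ _ he.symm]
    exact hq
  have hgp : 0 < d p (g • p) := L_pos hd hG p hg
  have hgp' : 0 < d p (g⁻¹ • p) := by rw [L_inv hd hG]; exact hgp
  have h2 : gp d (g • p) p (g • q) = 0 := by
    rw [← h1, h.gp_comm p q, ← gp_smul hG g p, smul_inv_smul]
  have h2' : gp d (g⁻¹ • p) p (g⁻¹ • q) = 0 := by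
    rw [← h0, h.gp_comm p q, ← gp_smul hG g⁻¹ p, inv_smul_smul]
  have h3 : gp d p q (g • q) = 0 := path_zero h h0 h2 hgp
  have h3' : gp d p q (g⁻¹ • q) = 0 := path_zero h h1 h2' hgp'
  have key : ∀ r : T, gp d p q r = 0 → 0 < gp d q p r := by
    intro r hr
    have k1 := (btw_iff_gp hd).2 hr
    unfold Btw at k1
    unfold gp
    rw [k1]
    have : d q p + (d q p + d p r) - d p r = d q p + d q p := by abel
    rw [this]
    exact add_pos hpq hpq
  have h4 := key _ h3
  have h4' := key _ h3'
  have h5 := h.hyp q (g⁻¹ • q) p (g • q)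
  rw [h.gp_comm q (g⁻¹ • q) p] at h5
  unfold OnAxis at hq
  rw [hq] at h5
  exact absurd h5 (not_le.2 (lt_min h4' h4))

/-- For nontrivial `x` and `y` the axis of `x` meets the axis of `y` or the axis of `xy`. -/
theorem exists_common (h : IsLTree d) (hG : ActsFreely d G) {x y : G} (hx : x ≠ 1) (hy : y ≠ 1) :
    ∃ p : T, OnAxis d x p ∧ (OnAxis d y p ∨ OnAxis d (x * y) p) := by
  have hd := h.toIsLMetric
  obtain ⟨r⟩ := h.ne
  obtain ⟨q, hq, -, -⟩ := exists_proj h hG r hy
  obtain ⟨p, hp, h1, h2⟩ := exists_proj h hG q hx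
  refine ⟨p, hp, ?_⟩
  by_cases hyp : OnAxis d y p
  · exact Or.inl hyp
  right
  have h3 := dir_pos h hG hy hq hyp
  have h4 := dir_pos h hG (inv_ne_one.2 hy) (hq.inv h) (fun hc => hyp (by simpa using hc.inv h))
  refine (Compat.mul h hG ⟨?_, ?_⟩ hx hy).2
  · rw [h.gp_comm]
    apply gp_zero_of_pos h (c := q) (by rw [h.gp_comm]; exact h1)
    rw [h.gp_comm]
    exact h4
  · apply gp_zero_of_pos h (c := q) (by rw [h.gp_comm]; exact h2)
    rw [h.gp_comm]
    exact h3

theorem L_pow_succ (h : IsLTree d) (hG : ActsFreely d G) (p : T) {a : G} (ha : a ≠ 1) (k : ℕ) :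
    L d p (a ^ (k + 2)) = L d p (a ^ (k + 1)) + (d p (a • a • p) - d p (a • p)) := by
  have hd := h.toIsLMetric
  have hl := sq_lt h hG p ha
  induction k with
  | zero =>
    unfold L
    simp only [zero_add, pow_one, pow_two, mul_smul]
    abel
  | succ k ih =>
    unfold L at *
    have e1 : d (a • p) (a • a • p) = d p (a • p) := hG.isom _ _ _
    have e2 : d (a • p) (a ^ (k + 1 + 2) • p) = d p (a ^ (k + 2) • p) := by
      rw [show k + 1 + 2 = (k + 2) + 1 by ring, pow_succ' a (k + 2), mul_smul, hG.isom]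
    have e3 : d (a • a • p) (a ^ (k + 1 + 2) • p) = d p (a ^ (k + 1) • p) := by
      rw [show k + 1 + 2 = (k + 1 + 1) + 1 by ring, pow_succ' a (k + 1 + 1), mul_smul, hG.isom,
        pow_succ' a (k + 1), mul_smul, hG.isom]
    have h1 := h.hyp (a • p) p (a • a • p) (a ^ (k + 1 + 2) • p)
    have h2 := h.hyp (a • p) p (a ^ (k + 1 + 2) • p) (a • a • p)
    rw [h.gp_comm (a • p) (a ^ (k + 1 + 2) • p)] at h2
    have g1 : gp d (a • p) (a • a • p) (a ^ (k + 1 + 2) • p) =
        d p (a • p) + (d p (a • a • p) - d p (a • p)) := by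
      unfold gp
      rw [e1, e2, e3, ih]
      abel
    have g2 : gp d (a • p) p (a • a • p) =
        d p (a • p) - (d p (a • a • p) - d p (a • p)) := by
      unfold gp
      rw [e1, hd.comm (a • p) p]
      abel
    have g3 : gp d (a • p) p (a ^ (k + 1 + 2) • p) =
        d p (a • p) + d p (a ^ (k + 2) • p) - d p (a ^ (k + 1 + 2) • p) := by
      unfold gp
      rw [e2, hd.comm (a • p) p]
    rw [g1, g2, g3] at h1 h2
    have hl' : 0 < d p (a • a • p) - d p (a • p) := sub_pos.2 hl
    rw [show k + 1 + 1 = k + 2 by ring]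
    apply le_antisymm
    · rcases min_le_iff.1 h1 with h3 | h3
      · linear_combination (norm := (refine le_of_eq ?_; abel)) h3
      · linear_combination (norm := (refine le_of_eq ?_; abel)) h3 + hl'.le + hl'.le
    · rcases min_le_iff.1 h2 with h3 | h3
      · linear_combination (norm := (refine le_of_eq ?_; abel)) h3
      · exfalso
        have h4 : d p (a • p) < d p (a • p) := by
          linear_combination (norm := (refine le_of_eq ?_; abel)) h3 + hl' + hl'
        exact lt_irrefl _ h4

/-- the cube root of an element with `p` on its axis -/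
theorem root_facts (h : IsLTree d) (hG : ActsFreely d G) {p : T} {a : G} (ha : a ^ 3 ≠ 1)
    (hp : OnAxis d (a ^ 3) p) :
    L d p (a ^ 3) = L d p a + L d p a + L d p a ∧ L d p (a ^ 2) = L d p a + L d p a := by
  have hd := h.toIsLMetric
  have ha1 : a ≠ 1 := by
    rintro rfl
    simp at ha
  have h0 := L_pow_succ h hG p ha1 0
  have h1 := L_pow_succ h hG p ha1 1
  have h2 := L_pow_succ h hG p ha1 2
  have h3 := L_pow_succ h hG p ha1 3
  have h4 := L_pow_succ h hG p ha1 4
  rw [onAxis_iff hd hG] at hp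
  have e1 : a ^ 3 • a ^ 3 • p = a ^ 6 • p := by
    rw [smul_smul, ← pow_add]
  rw [e1] at hp
  simp only [zero_add, pow_one, Nat.reduceAdd] at h0 h1 h2 h3 h4
  change L d p (a ^ 6) = L d p (a ^ 3) + L d p (a ^ 3) at hp
  set l := d p (a • a • p) - d p (a • p) with hl
  have e2 : L d p a = l := by
    linear_combination (norm := abel) -hp + h4 + h3 + h2 - h1 - h0
  rw [e2] at h0 ⊢
  constructor
  · rw [h1, h0]
  · exact h0

theorem le_of_three {a b : Λ} (h : a + a + a ≤ b + b + b) : a ≤ b := by
  by_contra hc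
  rw [not_le] at hc
  exact absurd (add_lt_add (add_lt_add hc hc) hc) (not_lt.2 h)

/-- Two points between `p` and `w` are ordered. -/
theorem IsLTree.btw_btw (h : IsLTree d) {p w u v : T} (hu : Btw d p u w) (hv : Btw d p v w)
    (hle : d p u ≤ d p v) : Btw d p u v := by
  have h1 := h.dist_of_btw hu hv
  rw [abs_sub_comm, abs_of_nonneg (sub_nonneg.2 hle)] at h1
  unfold Btw
  rw [h1]
  abel

/-- If `u` is between `p` and `v` and `z` is between `u` and `v`, then `z` is between `p` and `v`,
and `u` is between `p` and `z`. -/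
theorem Btw.inner (hd : IsLMetric d) {p u z v : T} (h1 : Btw d p u v) (h2 : Btw d u z v) :
    Btw d p z v ∧ d p z = d p u + d u z := by
  have h3 : Btw d v z p := (h2.symm hd).trans hd (h1.symm hd)
  refine ⟨h3.symm hd, ?_⟩
  have h4 := h3.symm hd
  unfold Btw at *
  linear_combination (norm := abel) h1 + h2 - h4

/-- The main step: roots of `x` and `xy` commute. -/
theorem main_step (h : IsLTree d) (hG : ActsFreely d G) {p : T} {x y a b : G} (hx : x ≠ 1)
    (hy : y ≠ 1) (hpx : OnAxis d x p) (hc : Compat d x y p) (hle : L d p y ≤ L d p x)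
    (ha : a ^ 3 = x) (hb : b ^ 3 = x * y) : a * b = b * a := by
  have hd := h.toIsLMetric
  obtain ⟨hL, hpu⟩ := hc.mul h hG hx hy
  have hxy : x * y ≠ 1 := by
    intro he
    rw [he] at hL
    have h0 : L d p (1 : G) = 0 := by
      unfold L
      rw [one_smul, hd.self]
    rw [h0] at hL
    exact absurd hL (ne_of_lt (add_pos (L_pos hd hG p hx) (L_pos hd hG p hy)))
  obtain ⟨ha3, ha2⟩ := root_facts h hG (a := a) (by rw [ha]; exact hx) (by rw [ha]; exact hpx)
  obtain ⟨hb3, hb2⟩ := root_facts h hG (a := b) (by rw [hb]; exact hxy) (by rw [hb]; exact hpu)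
  -- comparison of the lengths
  have hba : L d p b ≤ L d p a + L d p a := by
    apply le_of_three
    have h1 : L d p b + L d p b + L d p b = L d p x + L d p y := by rw [← hb3, hb, hL]
    have h2 : L d p x = L d p a + L d p a + L d p a := by rw [← ha3, ha]
    linear_combination (norm := (refine le_of_eq ?_; abel)) h1 + hle + h2 + h2
  have hab : L d p a ≤ L d p b := by
    apply le_of_three
    have h1 : L d p b + L d p b + L d p b = L d p x + L d p y := by rw [← hb3, hb, hL]
    have h2 : L d p x = L d p a + L d p a + L d p a := by rw [← ha3, ha]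
    have h3 : 0 ≤ L d p y := hd.nonneg _ _
    linear_combination (norm := (refine le_of_eq ?_; abel)) h3 - h2 - h1
  have hb0 : 0 ≤ L d p b := hd.nonneg _ _
  -- the points on `[p, xyp]`
  have hxw : Btw d p (x • p) ((x * y) • p) := by
    unfold Btw
    unfold L at hL
    rw [hL, mul_smul, hG.isom]
  have hbw : ∀ c : G, L d p (c ^ 3) = L d p c + L d p c + L d p c →
      L d p (c ^ 2) = L d p c + L d p c → Btw d p (c • p) (c ^ 3 • p) ∧
        Btw d p (c ^ 2 • p) (c ^ 3 • p) := by
    intro c h3 h2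
    unfold L at h3 h2
    constructor
    · unfold Btw
      rw [h3, show c ^ 3 • p = c • c ^ 2 • p by rw [smul_smul, ← pow_succ'], hG.isom, h2]
      abel
    · unfold Btw
      rw [h3, show c ^ 3 • p = c ^ 2 • c • p by rw [smul_smul, ← pow_succ], hG.isom, h2]
  obtain ⟨a1, a2⟩ := hbw a ha3 ha2
  obtain ⟨b1, b2⟩ := hbw b hb3 hb2
  have a3 : a ^ 3 • p = x • p := by rw [ha]
  have b3 : b ^ 3 • p = (x * y) • p := by rw [hb]
  rw [a3] at a1 a2
  rw [b3] at b1 b2
  have a1w : Btw d p (a • p) ((x * y) • p) := a1.trans hd hxw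
  have a2w : Btw d p (a ^ 2 • p) ((x * y) • p) := a2.trans hd hxw
  -- `b p` is between `p` and `a² p`
  have c1 : Btw d p (b • p) (a ^ 2 • p) := h.btw_btw b1 a2w (by
    change L d p b ≤ L d p (a ^ 2)
    rw [ha2]
    exact hba)
  -- `a p` is between `p` and `b² p`
  have c2 : Btw d p (a • p) (b ^ 2 • p) := h.btw_btw a1w b2 (by
    change L d p a ≤ L d p (b ^ 2)
    rw [hb2]
    exact hab.trans (le_add_of_nonneg_left hb0))
  have c3 : Btw d (a • p) (a • b • p) (x • p) := by
    have := c1.smul hG a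
    rwa [show a • a ^ 2 • p = x • p by rw [smul_smul, ← pow_succ', ha]] at this
  have c4 : Btw d (b • p) (b • a • p) ((x * y) • p) := by
    have := c2.smul hG b
    rwa [show b • b ^ 2 • p = (x * y) • p by rw [smul_smul, ← pow_succ', hb]] at this
  obtain ⟨c5, c6⟩ := a1.inner hd c3
  obtain ⟨c7, c8⟩ := b1.inner hd c4
  have c9 : a • b • p = b • a • p := by
    refine h.eq_of_btw (c5.trans hd hxw) c7 ?_
    rw [c6, c8, hG.isom, hG.isom, add_comm]
  by_contra hne
  have hne' : (b * a)⁻¹ * (a * b) ≠ 1 := by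
    intro he
    exact hne (inv_mul_eq_one.1 he).symm
  apply hG.nofix _ hne' p
  rw [mul_smul, mul_smul a b, c9, ← mul_smul b a, inv_smul_smul]

/-- If `p` is on the axes of `x` and `y`, and there are cube roots, then `x` and `y` commute. -/
theorem commute_of_common (h : IsLTree d) (hG : ActsFreely d G) (hcub : ∀ g : G, ∃ a, a ^ 3 = g)
    {p : T} {x y : G} (hpx : OnAxis d x p) (hpy : OnAxis d y p) : Commute x y := by
  have hd := h.toIsLMetric
  -- the compatible case
  have key : ∀ x y : G, OnAxis d x p → OnAxis d y p → Compat d x y p → Commute x y := by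
    intro x y hpx hpy hc
    by_cases hx : x = 1
    · rw [hx]
      exact Commute.one_left y
    by_cases hy : y = 1
    · rw [hy]
      exact Commute.one_right x
    have key2 : ∀ x y : G, x ≠ 1 → y ≠ 1 → OnAxis d x p → Compat d x y p →
        L d p y ≤ L d p x → Commute x y := by
      intro x y hx hy hpx hc hle
      obtain ⟨a, ha⟩ := hcub x
      obtain ⟨b, hb⟩ := hcub (x * y)
      have h1 : Commute a b := main_step h hG hx hy hpx hc hle ha hb
      have h2 : Commute x (x * y) := by
        have h5 := (h1.pow_left 3).pow_right 3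
        rwa [ha, hb] at h5
      have h3 : x * (x * y) = x * (y * x) := by
        have := h2.eq
        rw [this, mul_assoc]
      exact mul_left_cancel h3
    rcases le_total (L d p y) (L d p x) with hle | hle
    · exact key2 x y hx hy hpx hc hle
    · have h4 : Commute y⁻¹ x⁻¹ := by
        apply key2 y⁻¹ x⁻¹ (inv_ne_one.2 hy) (inv_ne_one.2 hx) (hpy.inv h)
        · refine ⟨?_, ?_⟩
          · rw [inv_inv, h.gp_comm]
            exact hc.1
          · rw [inv_inv, h.gp_comm]
            exact hc.2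
        · unfold L
          rw [L_inv hd hG, L_inv hd hG]
          exact hle
      exact (Commute.inv_inv_iff.1 h4).symm
  rcases compat_or h hpx hpy with hc | hc
  · exact key x y hpx hpy hc
  · exact Commute.inv_right_iff.1 (key x y⁻¹ hpx (hpy.inv h) hc)

/-- A group in which every element is a cube and which acts freely on a `Λ`-tree is abelian. -/
theorem commute_of_cubes (h : IsLTree d) (hG : ActsFreely d G) (hcub : ∀ g : G, ∃ a, a ^ 3 = g)
    (x y : G) : x * y = y * x := by
  by_cases hx : x = 1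
  · simp [hx]
  by_cases hy : y = 1
  · simp [hy]
  obtain ⟨p, hp, hp' | hp'⟩ := exists_common h hG hx hy
  · exact (commute_of_common h hG hcub hp hp').eq
  · have h1 := (commute_of_common h hG hcub hp hp').eq
    have h3 : x * (x * y) = x * (y * x) := by
      rw [h1, mul_assoc]
    exact mul_left_cancel h3

end Pool.Agent.W5h57.LTree
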